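import Pool.Agent.H619.CS.AFF
import Pool.Agent.H619.CS.SL
import Pool.Agent.H619.CS.PS
import Pool.Agent.H619.CS.SIM
import Pool.Agent.H619.CS.STEP
import Pool.Agent.H619.CS.IND

/-!
# MP_e508a7_gt: the simplex bound for polytopes with at most `n + 2` vertices

`ρ(K) = |K ∩ (-K)| / |K|` for a body `K` with centroid `0`. For every `n`, a polytope `K` in `ℝ^n` with at
most `n + 2` vertices and centroid `0` satisfies the conjectured sharp inequality
`ρ(K) ≥ ρ(simplex)`.

Proof: `ρ` does not decrease under partial Steiner symmetrisation (see `PartialSteiner`). In a polytope
with `n + 2` vertices which is not a simplex take two vertices `w_i, w_j` on the same side of the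
affine dependence. The other `n` vertices lie in a hyperplane, which meets the line `w_i w_j` in a
point `c` of the segment, and the translate of the segment along its line which starts at `c` gives a
polytope with the same chord lengths in this direction, with a `ρ` which is not larger, and with a
shorter affine dependence. After finitely many steps it is a simplex.
-/

set_option autoImplicit false

open MeasureTheory Set

open scoped ENNReal

namespace Pool.Agent.Results.MP_e508a7_gt.FewVertices

open Pool.Agent.H619.CS

/-- Euclidean space -/
abbrev E (n : ℕ) : Type := EuclideanSpace ℝ (Fin n)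

/-- the convex hull of a family of points -/
def hull {ι : Type} {n : ℕ} (v : ι → E n) : Set (E n) := convexHull ℝ (Set.range v)

/-- the centroid is `0` -/
def Centred {n : ℕ} (K : Set (E n)) : Prop := ∫ x in K, x = 0

/-- `|K ∩ (-K)|` -/
noncomputable def symPart {n : ℕ} (K : Set (E n)) : ℝ≥0∞ := volume {x : E n | x ∈ K ∧ -x ∈ K}

lemma symv_centred {n : ℕ} {K : Set (E n)} (h : Centred K) : symv volume K = symPart K := by
  have hc : cen volume K = 0 := by
    unfold cen
    rw [show ∫ x in K, x = 0 from h, smul_zero]
  unfold symv symPart
  rw [hc, smul_zero]
  simp only [zero_sub]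

/-- **Main theorem.** Polytopes with at most `n + 2` vertices. -/
theorem result :
    ∀ (n : ℕ) (v : Fin (n + 1) → E n) (w : Fin (n + 2) → E n), AffineIndependent ℝ v →
      Centred (hull v) → (interior (hull w)).Nonempty → Centred (hull w) →
      symPart (hull v) * volume (hull w) ≤ symPart (hull w) * volume (hull v) := by
  intro n v w hv hv0 hw hw0
  have h := ind (sim aff) (step aff ps sl) n v w hv hw
  have e1 := symv_centred hv0
  have e2 := symv_centred hw0
  unfold hull at e1 e2 ⊢
  rw [e1, e2] at h
  exact h

end Pool.Agent.Results.MP_e508a7_gt.FewVertices
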