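import Pool.Agent.H619.CS.AFF
import Pool.Agent.H619.CS.PS
import Pool.Agent.H619.CS.GEN

/-!
# MP_e508a7_gt: partial Steiner symmetrisation

`ρ(K) = |K ∩ (-K)| / |K|` for a body `K` with centroid `0` does not decrease under partial Steiner
symmetrisation. If the chords of `K` parallel to `u` are segments with midpoints `c` (measured from a
hyperplane through the centroid) and half lengths `r`, and `K'` has the chords with midpoints `t c` and
the same half lengths, with one `t ∈ [-1, 1]`, then `K'` has the same volume, its centroid is again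
`0`, and `|K' ∩ (-K')| ≥ |K ∩ (-K)|`. So the conjectured extremal bodies are bodies of which no chords
can be moved in this way.

Proof: the overlap of two intervals increases when their midpoints approach each other.
-/

set_option autoImplicit false

open MeasureTheory Set

open scoped ENNReal

namespace Pool.Agent.Results.MP_e508a7_gt.PartialSteiner

open Pool.Agent.H619.CS

/-- Euclidean space -/
abbrev E (n : ℕ) : Type := EuclideanSpace ℝ (Fin n)

/-- the centroid is `0` -/
def Centred {n : ℕ} (K : Set (E n)) : Prop := ∫ x in K, x = 0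

/-- `|K ∩ (-K)|` -/
noncomputable def symPart {n : ℕ} (K : Set (E n)) : ℝ≥0∞ := volume {x : E n | x ∈ K ∧ -x ∈ K}

/-- `K'` is a partial Steiner symmetral of `K`: for a direction `u` and the hyperplane `φ = 0` (where
`φ u = 1`), every chord of `K` parallel to `u` is empty or a segment with midpoint `c` and half length
`r`, in the coordinate `s` of the point `z + s u`, `φ z = 0`, and the same chord of `K'` is empty or
the segment with midpoint `t c` and half length `r`, with one `t ∈ [-1, 1]` for all chords. -/
def PartialSteiner {n : ℕ} (K K' : Set (E n)) : Prop :=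
  ∃ (u : E n) (φ : E n →L[ℝ] ℝ) (t : ℝ), φ u = 1 ∧ |t| ≤ 1 ∧
    ∀ z, φ z = 0 → ({s : ℝ | z + s • u ∈ K} = ∅ ∧ {s : ℝ | z + s • u ∈ K'} = ∅) ∨
      ∃ c r : ℝ, 0 ≤ r ∧ {s : ℝ | z + s • u ∈ K} = Icc (c - r) (c + r) ∧
        {s : ℝ | z + s • u ∈ K'} = Icc (t * c - r) (t * c + r)

/-- **Main theorem.** -/
theorem result :
    ∀ (n : ℕ) (K K' : Set (E n)), IsCompact K → IsCompact K' → PartialSteiner K K' → Centred K →
      Centred K' ∧ volume K' = volume K ∧ symPart K ≤ symPart K' := by
  rintro n K K' hK hK' ⟨u, φ, t, h1, h2, h3⟩ h4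
  exact gen aff ps n K K' u φ t h1 h2 hK hK' h3 h4

end Pool.Agent.Results.MP_e508a7_gt.PartialSteiner
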